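import Mathlib
import Pool.Agent.H391R2.WrGrp

/-!
# Two subgroups of the wreath product `G ≀ S_n`

`St o` is the group of the pairs `(f, σ)` with `σ o = o`, and `Ke o` is its normal subgroup of the
pairs with `σ o = o` and `f o = 1`.  The quotient is `G`, the normaliser of `Ke o` is `St o`, and
every subgroup between `Ke o` and `G ≀ S_n` is contained in `St o` or is the whole group.
-/

set_option autoImplicit false

namespace Pool.Agent.U671.AG

open Pool.Agent.H391R2 (Wr wr_mul_left wr_mul_right wr_inv_left)

variable {G : Type} [Group G] {n : ℕ}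

/-- The pairs `(f, σ)` with `σ o = o`. -/
def St (G : Type) [Group G] {n : ℕ} (o : Fin n) : Subgroup (Wr G n) :=
  (MulAction.stabilizer (Equiv.Perm (Fin n)) o).comap SemidirectProduct.rightHom

theorem mem_St {o : Fin n} {w : Wr G n} : w ∈ St G o ↔ w.right o = o := Iff.rfl

/-- The map `(f, σ) ↦ f o` on `St o`. -/
def co (G : Type) [Group G] {n : ℕ} (o : Fin n) : St G o →* G where
  toFun w := w.1.left o
  map_one' := rfl
  map_mul' a b := by
    have h1 : a.1.right o = o := a.2
    change (a.1 * b.1).left o = _
    rw [wr_mul_left, show a.1.right⁻¹ o = o from by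
      rw [Equiv.Perm.inv_eq_iff_eq]; exact h1.symm]

theorem co_surjective (o : Fin n) : Function.Surjective (co G o) := by
  intro g
  exact ⟨⟨⟨fun _ => g, 1⟩, rfl⟩, rfl⟩

/-- The pairs `(f, σ)` with `σ o = o` and `f o = 1`. -/
def Ke (G : Type) [Group G] {n : ℕ} (o : Fin n) : Subgroup (Wr G n) :=
  (co G o).ker.map (St G o).subtype

theorem mem_Ke {o : Fin n} {w : Wr G n} : w ∈ Ke G o ↔ w.right o = o ∧ w.left o = 1 := by
  constructor
  · rintro ⟨⟨x, hx⟩, h1, rfl⟩
    exact ⟨hx, h1⟩
  · rintro ⟨h1, h2⟩
    exact ⟨⟨w, h1⟩, h2, rfl⟩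

theorem Ke_le (o : Fin n) : Ke G o ≤ St G o := fun _ hw => (mem_Ke.1 hw).1

theorem index_St (o : Fin n) : (St G o).index = n := by
  have : NeZero n := ⟨fun h => by subst h; exact o.elim0⟩
  unfold St
  rw [Subgroup.index_comap_of_surjective _ SemidirectProduct.rightHom_surjective,
    MulAction.index_stabilizer_of_transitive, Nat.card_eq_fintype_card, Fintype.card_fin]

theorem index_Ke (o : Fin n) : (Ke G o).index = n * Nat.card G := by
  have h1 := Subgroup.relIndex_mul_index (Ke_le (G := G) o)
  have h2 : (Ke G o).relIndex (St G o) = Nat.card G := by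
    have h3 : (Ke G o).subgroupOf (St G o) = (co G o).ker := by
      ext ⟨x, hx⟩
      rw [Subgroup.mem_subgroupOf, mem_Ke, MonoidHom.mem_ker]
      exact ⟨fun h => h.2, fun h => ⟨hx, h⟩⟩
    unfold Subgroup.relIndex
    rw [h3, Subgroup.index_ker, MonoidHom.range_eq_top.2 (co_surjective o)]
    exact Nat.card_congr Subgroup.topEquiv.toEquiv
  rw [← h1, h2, index_St, mul_comm]

theorem exists_third (hn : 3 ≤ n) (a b : Fin n) : ∃ c : Fin n, c ≠ a ∧ c ≠ b := by
  classical
  have h1 : ({a, b} : Finset (Fin n)).card < (Finset.univ : Finset (Fin n)).card := by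
    rw [Finset.card_univ, Fintype.card_fin]
    exact lt_of_le_of_lt Finset.card_le_two (by omega)
  obtain ⟨r, -, hr⟩ := Finset.exists_mem_notMem_of_card_lt_card h1
  simp only [Finset.mem_insert, Finset.mem_singleton, not_or] at hr
  exact ⟨r, hr.1, hr.2⟩

/-- The normaliser of `Ke o` is `St o`. -/
theorem norm_Ke (hn : 3 ≤ n) {o : Fin n} {w : Wr G n}
    (h : ∀ k ∈ Ke G o, w * k * w⁻¹ ∈ Ke G o) : w ∈ St G o := by
  classical
  rw [mem_St]
  by_contra hw
  obtain ⟨l, hl1, hl2⟩ := exists_third hn (w.right⁻¹ o) o
  have hj : w.right⁻¹ o ≠ o := by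
    intro h1
    apply hw
    rw [Equiv.Perm.inv_eq_iff_eq] at h1
    exact h1.symm
  have hk : (SemidirectProduct.inr (Equiv.swap (w.right⁻¹ o) l) : Wr G n) ∈ Ke G o := by
    rw [mem_Ke]
    refine ⟨?_, rfl⟩
    change Equiv.swap (w.right⁻¹ o) l o = o
    exact Equiv.swap_apply_of_ne_of_ne hj.symm hl2.symm
  have h1 := (mem_Ke.1 (h _ hk)).1
  rw [wr_mul_right, wr_mul_right, SemidirectProduct.inv_right, SemidirectProduct.right_inr] at h1
  change w.right (Equiv.swap (w.right⁻¹ o) l (w.right⁻¹ o)) = o at h1
  rw [Equiv.swap_apply_left] at h1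
  apply hl1
  rw [← h1]
  simp

/-- The subgroups between `Ke o` and `G ≀ S_n`. -/
theorem le_or_top {o : Fin n} (X : Subgroup (Wr G n)) (hX : Ke G o ≤ X) :
    X ≤ St G o ∨ X = ⊤ := by
  classical
  by_cases hS : X ≤ St G o
  · exact Or.inl hS
  right
  obtain ⟨x, hx, hxo⟩ := Set.not_subset.1 hS
  have hxo : x.right o ≠ o := hxo
  -- the base group
  have hbase : ∀ f : Fin n → G, (SemidirectProduct.inl f : Wr G n) ∈ X := by
    intro f
    -- an element supported at `o`
    have h1 : ∀ g : G, (SemidirectProduct.inl (Pi.mulSingle o g) : Wr G n) ∈ X := by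
      intro g
      have h2 : (SemidirectProduct.inl (fun i => if i = x.right⁻¹ o then
          (x.left o)⁻¹ * g * x.left o else 1) : Wr G n) ∈ X := by
        apply hX
        rw [mem_Ke]
        refine ⟨rfl, ?_⟩
        change (if o = x.right⁻¹ o then _ else _) = _
        rw [if_neg]
        intro h3
        apply hxo
        have h4 := congrArg x.right h3
        simpa using h4
      have h3 := X.mul_mem (X.mul_mem hx h2) (X.inv_mem hx)
      have h4 : x * (SemidirectProduct.inl (fun i => if i = x.right⁻¹ o then
          (x.left o)⁻¹ * g * x.left o else 1) : Wr G n) * x⁻¹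
          = SemidirectProduct.inl (Pi.mulSingle o g) := by
        apply SemidirectProduct.ext
        · funext i
          rw [wr_mul_left, wr_mul_left, wr_inv_left, wr_mul_right, SemidirectProduct.right_inl,
            mul_one, SemidirectProduct.left_inl, SemidirectProduct.left_inl,
            show x.right (x.right⁻¹ i) = i by simp]
          by_cases hi : i = o
          · subst hi
            rw [if_pos rfl, Pi.mulSingle_eq_same]
            group
          · rw [if_neg (fun h => hi (x.right⁻¹.injective h)), Pi.mulSingle_eq_of_ne hi]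
            group
        · rw [wr_mul_right, wr_mul_right, SemidirectProduct.inv_right,
            SemidirectProduct.right_inl, SemidirectProduct.right_inl]
          group
      rwa [h4] at h3
    have h5 : (SemidirectProduct.inl (Function.update f o 1) : Wr G n) ∈ X := by
      apply hX
      rw [mem_Ke]
      exact ⟨rfl, Function.update_self o 1 f⟩
    have h6 := X.mul_mem h5 (h1 (f o))
    rw [← map_mul] at h6
    have h7 : Function.update f o 1 * Pi.mulSingle o (f o) = f := by
      funext i
      by_cases hi : i = o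
      · subst hi
        simp
      · simp [Pi.mulSingle_eq_of_ne hi, Function.update_of_ne hi]
    rwa [h7] at h6
  -- the elements of the stabiliser
  have hst : ∀ w : Wr G n, w.right o = o → w ∈ X := by
    intro w hw
    rw [← SemidirectProduct.inl_left_mul_inr_right w]
    refine X.mul_mem (hbase _) (hX ?_)
    rw [mem_Ke]
    exact ⟨hw, rfl⟩
  rw [eq_top_iff]
  intro w _
  by_cases hw : w.right o = o
  · exact hst w hw
  -- `w` and `x` up to the stabiliser
  have h8 : (SemidirectProduct.inr (Equiv.swap (x.right o) (w.right o)) : Wr G n) ∈ X := by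
    apply hst
    change Equiv.swap (x.right o) (w.right o) o = o
    exact Equiv.swap_apply_of_ne_of_ne (Ne.symm hxo) (Ne.symm hw)
  have h9 := X.mul_mem h8 hx
  have h10 : (SemidirectProduct.inr (Equiv.swap (x.right o) (w.right o)) * x)⁻¹ * w ∈ X := by
    apply hst
    rw [wr_mul_right, SemidirectProduct.inv_right, wr_mul_right, SemidirectProduct.right_inr]
    change (Equiv.swap (x.right o) (w.right o) * x.right)⁻¹ (w.right o) = o
    rw [Equiv.Perm.inv_eq_iff_eq]
    change w.right o = Equiv.swap (x.right o) (w.right o) (x.right o)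
    rw [Equiv.swap_apply_left]
  have h11 := X.mul_mem h9 h10
  rwa [mul_inv_cancel_left] at h11

end Pool.Agent.U671.AG
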