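import Mathlib
import Pool.Agent.U671.AG.Grp

/-!
# The field belonging to `Ke o`

Let `L/K` be a finite Galois extension with group `G ≀ S_n`, `n ≥ 3`.  The subfield `M` of `L` fixed
by `Ke o` has degree `n |G|` over `K`, its automorphism group over `K` is `G`, and its only
intermediate fields are `K` and the fixed fields of the subgroups of `G`.
-/

set_option autoImplicit false

namespace Pool.Agent.U671.AG

open Pool.Agent.H391R2 (Wr)

variable {K L : Type} [Field K] [Field L] [Algebra K L]

/-- The restriction of an automorphism of `L` to a subfield which it maps to itself. -/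
def res (M : IntermediateField K L) (S : Subgroup (L ≃ₐ[K] L))
    (hS : ∀ g ∈ S, ∀ x ∈ M, g x ∈ M) : S →* (M →ₐ[K] M) where
  toFun g := ((g.1 : L →ₐ[K] L).comp M.val).codRestrict M.toSubalgebra
    (fun x => hS g.1 g.2 x.1 x.2)
  map_one' := by
    apply AlgHom.ext
    intro x
    rfl
  map_mul' a b := by
    apply AlgHom.ext
    intro x
    rfl

theorem res_apply (M : IntermediateField K L) (S : Subgroup (L ≃ₐ[K] L))
    (hS : ∀ g ∈ S, ∀ x ∈ M, g x ∈ M) (g : S) (x : M) : ((res M S hS g x : M) : L) = g.1 x.1 := rfl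

theorem main [FiniteDimensional K L] [IsGalois K L] {G : Type} [Group G] [Finite G] {n : ℕ}
    (hn : 3 ≤ n) (e : (L ≃ₐ[K] L) ≃* Wr G n) :
    ∃ (M : IntermediateField K L) (E : IntermediateField K M),
      Module.finrank K E = n ∧ Module.finrank K M = n * Nat.card G ∧ IsGalois E M ∧
      Nonempty ((M ≃ₐ[K] M) ≃* G) ∧ (∀ φ : M ≃ₐ[K] M, ∀ x ∈ E, φ x = x) ∧
      ∀ F : IntermediateField K M, F = ⊥ ∨ E ≤ F := by
  classical
  have o : Fin n := ⟨0, by omega⟩
  have hsurj : Function.Surjective (e : (L ≃ₐ[K] L) →* Wr G n) := e.surjective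
  obtain ⟨H, hH⟩ : ∃ H : Subgroup (L ≃ₐ[K] L), H = (Ke G o).comap (e : (L ≃ₐ[K] L) →* Wr G n) :=
    ⟨_, rfl⟩
  obtain ⟨S, hS⟩ : ∃ S : Subgroup (L ≃ₐ[K] L), S = (St G o).comap (e : (L ≃ₐ[K] L) →* Wr G n) :=
    ⟨_, rfl⟩
  have hSmem : ∀ g : L ≃ₐ[K] L, g ∈ S → e g ∈ St G o := by
    intro g hg
    rw [hS] at hg
    exact hg
  have hEfixmem : ∀ (E₁ : IntermediateField K L), E₁.fixingSubgroup = S → ∀ g ∈ S, ∀ x ∈ E₁,
      g x = x := by
    intro E₁ hE₁ g hg x hx
    rw [← hE₁, IntermediateField.mem_fixingSubgroup_iff] at hg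
    exact hg x hx
  have hHS : H ≤ S := by
    rw [hH, hS]
    exact Subgroup.comap_mono (Ke_le o)
  have hHidx : H.index = n * Nat.card G := by
    rw [hH, Subgroup.index_comap_of_surjective _ hsurj, index_Ke]
  have hSidx : S.index = n := by
    rw [hS, Subgroup.index_comap_of_surjective _ hsurj, index_St]
  obtain ⟨M, hM⟩ : ∃ M : IntermediateField K L, M = IntermediateField.fixedField H := ⟨_, rfl⟩
  obtain ⟨E₀, hE₀⟩ : ∃ E₀ : IntermediateField K L, E₀ = IntermediateField.fixedField S := ⟨_, rfl⟩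
  have hMfix : M.fixingSubgroup = H := by rw [hM, IntermediateField.fixingSubgroup_fixedField]
  have hEfix : E₀.fixingSubgroup = S := by rw [hE₀, IntermediateField.fixingSubgroup_fixedField]
  have hEM : E₀ ≤ M := by
    rw [hE₀, hM]
    exact IntermediateField.fixedField_antitone hHS
  have hMrank : Module.finrank K M = n * Nat.card G := by
    rw [IntermediateField.finrank_eq_fixingSubgroup_index, hMfix, hHidx]
  have hErank : Module.finrank K E₀ = n := by
    rw [IntermediateField.finrank_eq_fixingSubgroup_index, hEfix, hSidx]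
  -- `S` maps `M` to itself
  have hSM : ∀ g ∈ S, ∀ x ∈ M, g x ∈ M := by
    intro g hg x hx
    rw [hM, IntermediateField.mem_fixedField_iff] at hx ⊢
    intro h hh
    have h1 : g⁻¹ * h * g ∈ H := by
      rw [hH, Subgroup.mem_comap] at hh ⊢
      rw [hS, Subgroup.mem_comap] at hg
      obtain ⟨h2, h3⟩ := mem_Ke.1 hh
      have h4 : (e g).right o = o := hg
      have h5 : (e g).right⁻¹ o = o := by rw [Equiv.Perm.inv_eq_iff_eq]; exact h4.symm
      rw [mem_Ke]
      have h6 : (e : (L ≃ₐ[K] L) →* Wr G n) (g⁻¹ * h * g) = (e g)⁻¹ * e h * e g := by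
        simp
      have h2' : (e h).right o = o := h2
      have h3' : (e h).left o = 1 := h3
      have h2'' : (e h).right⁻¹ o = o := by rw [Equiv.Perm.inv_eq_iff_eq]; exact h2'.symm
      rw [h6]
      constructor
      · rw [Pool.Agent.H391R2.wr_mul_right, Pool.Agent.H391R2.wr_mul_right,
          SemidirectProduct.inv_right]
        change (e g).right⁻¹ ((e h).right ((e g).right o)) = o
        rw [h4, h2', h5]
      · rw [Pool.Agent.H391R2.wr_mul_left, Pool.Agent.H391R2.wr_mul_left,
          Pool.Agent.H391R2.wr_inv_left, Pool.Agent.H391R2.wr_mul_right,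
          SemidirectProduct.inv_right, inv_inv, mul_inv_rev]
        rw [h4, h3', mul_one]
        change _ * (e g).left ((e h).right⁻¹ (((e g).right⁻¹)⁻¹ o)) = 1
        rw [inv_inv, h4, h2'']
        group
    have h2 := hx _ h1
    have h3 : g ((g⁻¹ * h * g) x) = h (g x) := by
      change g (g⁻¹ (h (g x))) = h (g x)
      rw [← AlgEquiv.mul_apply, mul_inv_cancel, AlgEquiv.one_apply]
    rw [← h3, h2]
  -- the restriction
  obtain ⟨Θ, hΘ⟩ : ∃ Θ : S →* (M ≃ₐ[K] M), ∀ (g : S) (x : M), ((Θ g x : M) : L) = g.1 x.1 := by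
    refine ⟨((Algebra.IsAlgebraic.algEquivEquivAlgHom K M).symm :
      (M →ₐ[K] M) ≃* (M ≃ₐ[K] M)).toMonoidHom.comp (res M S hSM), fun g x => ?_⟩
    change ((((Algebra.IsAlgebraic.algEquivEquivAlgHom K M).symm (res M S hSM g)) x : M) : L) = _
    rw [← res_apply M S hSM g x]
    congr 1
  have hΘsurj : Function.Surjective Θ := by
    intro φ
    have h1 : ∀ x : M, (φ.liftNormal L) (x : L) = ((φ x : M) : L) := fun x =>
      AlgEquiv.liftNormal_commutes φ L x
    have hg : φ.liftNormal L ∈ S := by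
      rw [hS, Subgroup.mem_comap]
      have h2 : (e (φ.liftNormal L))⁻¹ ∈ St G o := by
        apply norm_Ke hn
        intro k hk
        rw [inv_inv]
        have h3 : e.symm k ∈ H := by
          rw [hH, Subgroup.mem_comap]
          change e (e.symm k) ∈ _
          rw [MulEquiv.apply_symm_apply]
          exact hk
        have h4 : (φ.liftNormal L)⁻¹ * e.symm k * φ.liftNormal L ∈ H := by
          rw [← hMfix, IntermediateField.mem_fixingSubgroup_iff]
          intro x hx
          rw [← hMfix, IntermediateField.mem_fixingSubgroup_iff] at h3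
          change (φ.liftNormal L)⁻¹ (e.symm k (φ.liftNormal L x)) = x
          rw [show x = ((⟨x, hx⟩ : M) : L) from rfl, h1 ⟨x, hx⟩, h3 _ (φ ⟨x, hx⟩).2,
            ← h1 ⟨x, hx⟩, ← AlgEquiv.mul_apply, inv_mul_cancel, AlgEquiv.one_apply]
        rw [hH, Subgroup.mem_comap] at h4
        have h5 : (e : (L ≃ₐ[K] L) →* Wr G n) ((φ.liftNormal L)⁻¹ * e.symm k * φ.liftNormal L)
            = (e (φ.liftNormal L))⁻¹ * k * e (φ.liftNormal L) := by
          simp
        rwa [h5] at h4
      exact (inv_mem_iff).1 h2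
    refine ⟨⟨φ.liftNormal L, hg⟩, ?_⟩
    apply AlgEquiv.ext
    intro x
    apply Subtype.ext
    rw [hΘ]
    exact h1 x
  -- the map to `G`
  let c : S →* G := (co G o).comp
    { toFun := fun g => ⟨e g.1, hSmem g.1 g.2⟩
      map_one' := Subtype.ext (map_one e)
      map_mul' := fun a b => Subtype.ext (map_mul e a.1 b.1) }
  have hc : Function.Surjective c := by
    intro g
    refine ⟨⟨e.symm ⟨fun _ => g, 1⟩, ?_⟩, ?_⟩
    · rw [hS, Subgroup.mem_comap]
      change e (e.symm _) ∈ _
      rw [MulEquiv.apply_symm_apply]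
      rfl
    · change (e (e.symm _)).left o = g
      rw [MulEquiv.apply_symm_apply]
  have hker : Θ.ker = c.ker := by
    ext g
    have h1 : g ∈ Θ.ker ↔ g.1 ∈ H := by
      rw [← hMfix, IntermediateField.mem_fixingSubgroup_iff, MonoidHom.mem_ker]
      constructor
      · intro h x hx
        have h2 := hΘ g ⟨x, hx⟩
        rw [h] at h2
        exact h2.symm
      · intro h
        apply AlgEquiv.ext
        intro x
        apply Subtype.ext
        rw [hΘ]
        exact h x.1 x.2
    rw [h1, hH, Subgroup.mem_comap]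
    have h3 := hSmem g.1 g.2
    change e g.1 ∈ Ke G o ↔ _
    rw [mem_Ke, MonoidHom.mem_ker]
    exact ⟨fun h => h.2, fun h => ⟨h3, h⟩⟩
  have hiso : Nonempty ((M ≃ₐ[K] M) ≃* G) :=
    ⟨(QuotientGroup.quotientKerEquivOfSurjective Θ hΘsurj).symm.trans
      ((QuotientGroup.quotientMulEquivOfEq hker).trans
        (QuotientGroup.quotientKerEquivOfSurjective c hc))⟩
  -- the field `E`
  obtain ⟨E, hE⟩ : ∃ E : IntermediateField K M, E = IntermediateField.restrict hEM := ⟨_, rfl⟩
  have hEmem : ∀ x : M, x ∈ E ↔ (x : L) ∈ E₀ := by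
    intro x
    rw [hE]
    exact IntermediateField.mem_restrict hEM x
  have hErk : Module.finrank K E = n := by
    rw [← hErank, hE]
    exact (IntermediateField.restrictAlgEquiv hEM).toLinearEquiv.finrank_eq.symm
  have hfixE : ∀ φ : M ≃ₐ[K] M, ∀ x ∈ E, φ x = x := by
    intro φ x hx
    obtain ⟨g, rfl⟩ := hΘsurj φ
    apply Subtype.ext
    rw [hΘ]
    exact hEfixmem E₀ hEfix g.1 g.2 _ ((hEmem x).1 hx)
  have hfdE : FiniteDimensional E M := FiniteDimensional.right K E M
  have hrankEM : Module.finrank E M = Nat.card G := by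
    have h1 := Module.finrank_mul_finrank K E M
    rw [hErk, hMrank] at h1
    exact Nat.eq_of_mul_eq_mul_left (by omega) h1
  have hgal : IsGalois E M := by
    have h1 : E.fixingSubgroup = ⊤ := by
      rw [eq_top_iff]
      intro φ _
      rw [IntermediateField.mem_fixingSubgroup_iff]
      exact fun x hx => hfixE φ x hx
    have h2 : Nat.card (M ≃ₐ[E] M) = Module.finrank E M := by
      obtain ⟨ι⟩ := hiso
      rw [hrankEM, ← Nat.card_congr ι.toEquiv,
        ← Nat.card_congr (IntermediateField.fixingSubgroupEquiv E).toEquiv, h1]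
      exact Nat.card_congr Subgroup.topEquiv.toEquiv
    exact IsGalois.of_card_aut_eq_finrank E M h2
  refine ⟨M, E, hErk, hMrank, hgal, hiso, hfixE, fun F => ?_⟩
  -- the intermediate fields
  obtain ⟨F₀, hF₀⟩ : ∃ F₀ : IntermediateField K L, F₀ = IntermediateField.lift F := ⟨_, rfl⟩
  have hFmem : ∀ x : M, x ∈ F ↔ (x : L) ∈ F₀ := by
    intro x
    rw [hF₀]
    exact (IntermediateField.mem_lift x).symm
  have hF₀M : F₀ ≤ M := by
    rw [hF₀]
    exact IntermediateField.lift_le F
  have h1 : Ke G o ≤ F₀.fixingSubgroup.comap (e.symm : Wr G n →* (L ≃ₐ[K] L)) := by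
    intro k hk
    rw [Subgroup.mem_comap]
    have h2 : e.symm k ∈ M.fixingSubgroup := by
      rw [hMfix, hH, Subgroup.mem_comap]
      change e (e.symm k) ∈ _
      rw [MulEquiv.apply_symm_apply]
      exact hk
    exact IntermediateField.fixingSubgroup_antitone hF₀M h2
  rcases le_or_top _ h1 with h2 | h2
  · right
    intro x hx
    rw [hFmem]
    have h3 : E₀ ≤ F₀ := by
      have h4 : F₀.fixingSubgroup ≤ S := by
        intro g hg
        rw [hS, Subgroup.mem_comap]
        apply h2
        rw [Subgroup.mem_comap]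
        change e.symm (e g) ∈ _
        rw [MulEquiv.symm_apply_apply]
        exact hg
      rw [hE₀, ← IsGalois.fixedField_fixingSubgroup F₀]
      exact IntermediateField.fixedField_antitone h4
    exact h3 ((hEmem x).1 hx)
  · left
    have h3 : F₀.fixingSubgroup = ⊤ := by
      rw [eq_top_iff]
      intro g _
      have h4 : e g ∈ F₀.fixingSubgroup.comap (e.symm : Wr G n →* (L ≃ₐ[K] L)) := by
        rw [h2]
        trivial
      rw [Subgroup.mem_comap] at h4
      change e.symm (e g) ∈ _ at h4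
      rwa [MulEquiv.symm_apply_apply] at h4
    have h5 : F₀ = ⊥ := by
      rw [← IsGalois.fixedField_fixingSubgroup F₀, h3]
      exact IsGalois.fixedField_top
    rw [eq_bot_iff]
    intro x hx
    have h6 := (hFmem x).1 hx
    rw [h5, IntermediateField.mem_bot] at h6
    obtain ⟨y, hy⟩ := h6
    rw [IntermediateField.mem_bot]
    exact ⟨y, Subtype.ext hy⟩

end Pool.Agent.U671.AG
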